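import Pool.Agent.H98.RFC.Targets

/-!
# FAC: connections in separated boxes are independent (`MP_057a7e_pr`)
-/

set_option autoImplicit false

open Finset hiding box

namespace Pool.Agent.H11.RFC

open Pool.Agent.H98.RFC

theorem sum_bw (P : Finset (Site × Site)) (q : Site × Site → ℝ) :
    ∑ ω ∈ P.powerset, bw P q ω = 1 := by
  have h1 := Finset.prod_add (fun e : Site × Site => 1 - q e) q P
  have h2 : ∏ e ∈ P, ((fun e : Site × Site => 1 - q e) e + q e) = 1 :=
    Finset.prod_eq_one fun e _ => by ring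
  rw [h2] at h1
  exact h1.symm

theorem bw_union {P Q : Finset (Site × Site)} (hPQ : Q ⊆ P) (q : Site × Site → ℝ)
    {S S' : Finset (Site × Site)} (hS : S ⊆ P \ Q) (hS' : S' ⊆ Q) :
    bw P q (S ∪ S') = bw (P \ Q) q S * bw Q q S' := by
  unfold bw
  have hd : Disjoint S S' :=
    Finset.disjoint_of_subset_left hS
      (Finset.disjoint_of_subset_right hS' Finset.sdiff_disjoint)
  rw [Finset.prod_union hd]
  have h1 : P \ (S ∪ S') = ((P \ Q) \ S) ∪ (Q \ S') := by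
    ext e
    simp only [Finset.mem_sdiff, Finset.mem_union]
    constructor
    · rintro ⟨h, h'⟩
      by_cases hQ : e ∈ Q
      · exact Or.inr ⟨hQ, fun h2 => h' (Or.inr h2)⟩
      · exact Or.inl ⟨⟨h, hQ⟩, fun h2 => h' (Or.inl h2)⟩
    · rintro (⟨⟨h, hQ⟩, h2⟩ | ⟨hQ, h2⟩)
      · exact ⟨h, fun h3 => h3.elim h2 fun h4 => hQ (hS' h4)⟩
      · exact ⟨hPQ hQ, fun h3 => h3.elim
          (fun h4 => (Finset.mem_sdiff.mp (hS h4)).2 hQ) h2⟩
  have h2 : Disjoint ((P \ Q) \ S) (Q \ S') :=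
    Finset.disjoint_of_subset_left Finset.sdiff_subset
      (Finset.disjoint_of_subset_right Finset.sdiff_subset Finset.sdiff_disjoint)
  rw [h1, Finset.prod_union h2]
  ring

theorem factor (hPS : T_PS) {ι : Type} [DecidableEq ι] (q : Site × Site → ℝ)
    (Q : ι → Finset (Site × Site)) (f : ι → Finset (Site × Site) → ℝ) (s : Finset ι) :
    ∀ P : Finset (Site × Site), (∀ i ∈ s, Q i ⊆ P) →
      (∀ i ∈ s, ∀ j ∈ s, i ≠ j → Disjoint (Q i) (Q j)) →
      ∑ ω ∈ P.powerset, bw P q ω * ∏ i ∈ s, f i (ω ∩ Q i) =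
        ∏ i ∈ s, ∑ ω ∈ (Q i).powerset, bw (Q i) q ω * f i ω := by
  induction s using Finset.induction_on with
  | empty =>
    intro P _ _
    simp only [Finset.prod_empty, mul_one]
    exact sum_bw P q
  | insert j s hj ih =>
    intro P hP hd
    have hQj : Q j ⊆ P := hP j (Finset.mem_insert_self _ _)
    have h1 : ∀ i ∈ s, Q i ⊆ P \ Q j := by
      intro i hi e he
      rw [Finset.mem_sdiff]
      refine ⟨hP i (Finset.mem_insert_of_mem hi) he, fun he' => ?_⟩
      exact (Finset.disjoint_left.mp (hd i (Finset.mem_insert_of_mem hi) j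
        (Finset.mem_insert_self _ _) (fun h => hj (h ▸ hi)))) he he'
    have h2 := ih (P \ Q j) h1 fun i hi i' hi' =>
      hd i (Finset.mem_insert_of_mem hi) i' (Finset.mem_insert_of_mem hi')
    have h3 : P = (P \ Q j) ∪ Q j := (Finset.sdiff_union_of_subset hQj).symm
    rw [Finset.prod_insert hj, ← h2, mul_comm, Finset.sum_mul_sum]
    have h4 := hPS (Site × Site) (P \ Q j) (Q j) Finset.sdiff_disjoint
      (fun ω => bw P q ω * ∏ i ∈ insert j s, f i (ω ∩ Q i))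
    rw [← h3] at h4
    rw [h4]
    refine Finset.sum_congr rfl fun S hS => Finset.sum_congr rfl fun S' hS' => ?_
    rw [Finset.mem_powerset] at hS hS'
    rw [bw_union hQj q hS hS', Finset.prod_insert hj]
    have h5 : (S ∪ S') ∩ Q j = S' := by
      ext e
      simp only [Finset.mem_inter, Finset.mem_union]
      constructor
      · rintro ⟨h | h, h'⟩
        · exact absurd h' (Finset.mem_sdiff.mp (hS h)).2
        · exact h
      · intro h
        exact ⟨Or.inr h, hS' h⟩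
    have h6 : ∏ i ∈ s, f i ((S ∪ S') ∩ Q i) = ∏ i ∈ s, f i (S ∩ Q i) := by
      refine Finset.prod_congr rfl fun i hi => ?_
      congr 1
      ext e
      simp only [Finset.mem_inter, Finset.mem_union]
      constructor
      · rintro ⟨h | h, h'⟩
        · exact ⟨h, h'⟩
        · exact absurd (hS' h) (Finset.mem_sdiff.mp (h1 i hi h')).2
      · rintro ⟨h, h'⟩
        exact ⟨Or.inl h, h'⟩
    rw [h5, h6]
    ring

theorem mem_prs {R : ℕ} {Λ : Finset Site} {p : Site × Site} : p ∈ prs R Λ ↔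
    (p.1 ∈ hull R Λ ∧ p.2 ∈ hull R Λ) ∧ (p.1 ∈ Λ ∨ p.2 ∈ Λ) ∧ p.2 - p.1 ∈ box R := by
  unfold prs
  rw [Finset.mem_filter, Finset.mem_product]

theorem mem_bx {y z : Site} {r : ℕ} : z ∈ bx y r ↔
    (y.1 - r ≤ z.1 ∧ z.1 ≤ y.1 + r) ∧ (y.2 - r ≤ z.2 ∧ z.2 ≤ y.2 + r) := by
  unfold bx
  rw [Finset.mem_product, Finset.mem_Icc, Finset.mem_Icc]

theorem mem_box {z : Site} {r : ℕ} : z ∈ box r ↔
    (-(r : ℤ) ≤ z.1 ∧ z.1 ≤ r) ∧ (-(r : ℤ) ≤ z.2 ∧ z.2 ≤ r) := by
  unfold box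
  rw [Finset.mem_product, Finset.mem_Icc, Finset.mem_Icc]

theorem mem_hull {R : ℕ} {Λ : Finset Site} {z : Site} :
    z ∈ hull R Λ ↔ ∃ x ∈ Λ, z ∈ bx x R := by
  unfold hull
  rw [Finset.mem_biUnion]

theorem self_mem_hull {R : ℕ} {Λ : Finset Site} {z : Site} (hz : z ∈ Λ) : z ∈ hull R Λ := by
  rw [mem_hull]
  refine ⟨z, hz, ?_⟩
  rw [mem_bx]
  omega

theorem mem_prs_of {R : ℕ} {Λ : Finset Site} {a b : Site} (ha : a ∈ Λ)
    (hb : b - a ∈ box R) : (a, b) ∈ prs R Λ ∧ (b, a) ∈ prs R Λ := by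
  have h1 : b ∈ hull R Λ := by
    rw [mem_hull]
    refine ⟨a, ha, ?_⟩
    rw [mem_box, Prod.fst_sub, Prod.snd_sub] at hb
    rw [mem_bx]
    omega
  refine ⟨mem_prs.mpr ⟨⟨self_mem_hull ha, h1⟩, Or.inl ha, hb⟩,
    mem_prs.mpr ⟨⟨h1, self_mem_hull ha⟩, Or.inr ha, ?_⟩⟩
  rw [mem_box, Prod.fst_sub, Prod.snd_sub] at hb ⊢
  dsimp only
  omega

theorem prs_mono {R : ℕ} {W Λ : Finset Site} (h : W ⊆ Λ) : prs R W ⊆ prs R Λ := by
  intro p hp
  rw [mem_prs] at hp ⊢
  have hh : hull R W ⊆ hull R Λ := by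
    intro z hz
    rw [mem_hull] at hz ⊢
    obtain ⟨x, hx, hz⟩ := hz
    exact ⟨x, h hx, hz⟩
  exact ⟨⟨hh hp.1.1, hh hp.1.2⟩, hp.2.1.imp (fun h1 => h h1) (fun h1 => h h1), hp.2.2⟩

theorem conn_inter {R : ℕ} {D : Set Site} {W Λ : Finset Site} {ω : Finset (Site × Site)}
    (hω : ω ⊆ prs R Λ) (y : Site) : conn D W ω y ↔ conn D W (ω ∩ prs R W) y := by
  have key : ∀ a b : Site, (a ∈ W ∧ a ∈ D ∧ b ∈ D ∧ opn ω a b) ↔
      (a ∈ W ∧ a ∈ D ∧ b ∈ D ∧ opn (ω ∩ prs R W) a b) := by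
    intro a b
    refine and_congr_right fun ha => and_congr_right fun _ => and_congr_right fun _ => ?_
    unfold opn
    simp only [Finset.mem_inter]
    constructor
    · rintro (h | h)
      · exact Or.inl ⟨h, (mem_prs_of ha (mem_prs.mp (hω h)).2.2).1⟩
      · refine Or.inr ⟨h, (mem_prs_of ha ?_).2⟩
        have h1 := (mem_prs.mp (hω h)).2.2
        rw [mem_box, Prod.fst_sub, Prod.snd_sub] at h1 ⊢
        dsimp only at h1
        omega
    · rintro (h | h)
      · exact Or.inl h.1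
      · exact Or.inr h.1
  have h2 : (fun a b : Site => a ∈ W ∧ a ∈ D ∧ b ∈ D ∧ opn ω a b) =
      fun a b : Site => a ∈ W ∧ a ∈ D ∧ b ∈ D ∧ opn (ω ∩ prs R W) a b := by
    funext a b
    exact propext (key a b)
  unfold conn
  rw [h2]

theorem pf_FAC (hPS : T_PS) : T_FAC := by
  classical
  intro R q Λ n W y D hW hsep
  have hd : ∀ i j : Fin n, i ≠ j → Disjoint (prs R (W i)) (prs R (W j)) := by
    intro i j hij
    rw [Finset.disjoint_left]
    intro p hp hp'
    rw [mem_prs] at hp hp'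
    have h1 := Finset.disjoint_left.mp (hsep j i hij.symm)
    rcases hp.2.1 with h | h
    · exact h1 hp'.1.1 h
    · exact h1 hp'.1.2 h
  have h1 := factor hPS q (fun i : Fin n => prs R (W i))
    (fun i ω => if conn D (W i) ω (y i) then (1 : ℝ) else 0) Finset.univ (prs R Λ)
    (fun i _ => prs_mono (hW i)) (fun i _ j _ => hd i j)
  have h2 : ∀ ω ∈ (prs R Λ).powerset, bw (prs R Λ) q ω *
      (if ∀ i, conn D (W i) ω (y i) then 1 else 0) =
      bw (prs R Λ) q ω * ∏ i : Fin n,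
        (if conn D (W i) (ω ∩ prs R (W i)) (y i) then (1 : ℝ) else 0) := by
    intro ω hω
    rw [Finset.mem_powerset] at hω
    congr 1
    rw [Finset.prod_boole]
    have h3 : (∀ i, conn D (W i) ω (y i)) ↔
        ∀ i ∈ Finset.univ, conn D (W i) (ω ∩ prs R (W i)) (y i) := by
      constructor
      · intro h i _
        exact (conn_inter hω (y i)).mp (h i)
      · intro h i
        exact (conn_inter hω (y i)).mpr (h i (Finset.mem_univ i))
    by_cases h4 : ∀ i, conn D (W i) ω (y i)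
    · rw [if_pos h4, if_pos (h3.mp h4)]
    · rw [if_neg h4, if_neg fun h5 => h4 (h3.mpr h5)]
  have h5 := (Finset.sum_congr rfl h2).trans h1
  refine Eq.trans ?_ (h5.trans ?_)
  · rfl
  · rfl

end Pool.Agent.H11.RFC
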